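import Mathlib
import Pool.Agent.Lib.MP_8481ed_ag.NonVan
import Pool.Agent.Lib.MP_8481ed_ag.Vanish

/-!
# A special divisor on a blow-up of the plane whose double is not special

Over every algebraically closed field: on the blow-up of the plane at the 16 points of a `4 × 4`
grid the divisor `5H - ∑ Eᵢ` is special, but `10H - 2 ∑ Eᵢ` is effective with vanishing first
cohomology.
-/

open Pool.Agent.Lib.MP_8481ed_ag
open scoped LinearAlgebra.Projectivization

universe u

namespace Pool.Agent.Results.MP_8481ed_ag.NonspecialDouble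

/-- There are distinct points `p i` of the plane, a special divisor `D = dH - ∑ mᵢ Eᵢ` on the
blow-up and an integer `n > 1` such that `nD` is not special: it is effective but its first
cohomology vanishes. -/
theorem result (k : Type u) [Field k] [IsAlgClosed k] :
    ∃ (r : ℕ) (p : Fin r → ℙ k (Fin 3 → k)), Function.Injective p ∧
      ∃ (d : ℤ) (m : Fin r → ℤ), IsSpecial p d m ∧
        ∃ n : ℤ, 1 < n ∧ ¬ IsSpecial p (n * d) (fun i => n * m i) ∧
          Nontrivial (H p (n * d) (fun i => n * m i) 0) ∧
          Subsingleton (H p (n * d) (fun i => n * m i) 1) := by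
  obtain ⟨e⟩ : Nonempty (Fin 4 ↪ k) := ⟨(Fin.valEmbedding).trans (Infinite.natEmbedding k)⟩
  have ha : Function.Injective e := e.injective
  have hsub : Subsingleton (H (grid e) (2 * 5) (fun _ => 2 * 1) 1) := by
    have h := subsingleton_H1_double ha
    exact h
  refine ⟨16, grid e, grid_injective ha, 5, fun _ => 1, ⟨nontrivial_H0 e, nontrivial_H1 ha⟩, 2,
    by norm_num, ?_, ?_, hsub⟩
  · intro h
    exact not_subsingleton_iff_nontrivial.2 h.2 hsub
  · refine (nontrivial_cohomology_zero_iff (stalk (grid e) (2 * 5) (fun _ => 2 * 1))).2 ?_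
    have hF0 : (lineProd 0 e : CoordRing k) ≠ 0 :=
      Finset.prod_ne_zero_iff.2 fun j _ => sub_ne_zero' 0 _ (by decide)
    refine ⟨toFrac (lineProd 0 e ^ 2 * MvPolynomial.X 0 ^ 2),
      toFrac_ne_zero (mul_ne_zero (pow_ne_zero _ hF0) (pow_ne_zero _ (MvPolynomial.X_ne_zero 0))),
      fun x => ?_⟩
    have h := isRegularAt_form (p := grid e)
      (((lineProd_homog 0 e).pow 2).mul ((MvPolynomial.isHomogeneous_X k (0 : Fin 3)).pow 2)) 2
      (fun i => Ideal.mul_mem_right _ _ (Ideal.pow_mem_pow (lineProd_mem_pointIdeal_zero e i) 2)) x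
    exact h

end Pool.Agent.Results.MP_8481ed_ag.NonspecialDouble
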